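import Mathlib

set_option autoImplicit false

/-!
# A direct sum of quivers whose mutation class has no maximal green sequence

We disprove the claim that `Psi (Q ⊕ Q')` is finite and non-empty whenever `Psi Q` and `Psi Q'`
are finite and non-empty: there are `Q` on three vertices and `Q'` on one vertex such that
`Psi Q` and `Psi Q'` are finite and non-empty while `Psi (Q ⊕ Q')` is empty.
-/

namespace Pool.Agent.Results.MP_10e588_co.DirectSum

/-! ## Definitions -/

/-- A quiver with vertex set `V`: `arr i j` is the number of arrows `i → j`; there are no loops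
and no oriented 2-cycles. -/
@[ext]
structure Quiv (V : Type) where
  /-- `arr i j` is the number of arrows from `i` to `j` -/
  arr : V → V → ℕ
  no_loop : ∀ i, arr i i = 0
  no_two_cycle : ∀ i j, arr i j = 0 ∨ arr j i = 0

variable {V W : Type}

/-- Mutation of the quiver `Q` at the vertex `k`: for each path `i → k → j` add an arrow `i → j`,
reverse all arrows at `k`, then cancel oriented 2-cycles. -/
def mutate [DecidableEq V] (Q : Quiv V) (k : V) : Quiv V where
  arr i j :=
    if i = k ∨ j = k then Q.arr j i
    else (Q.arr i j + Q.arr i k * Q.arr k j) - (Q.arr j i + Q.arr j k * Q.arr k i)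
  no_loop i := by
    by_cases h : i = k
    · simp [h, Q.no_loop k]
    · simp [h]
  no_two_cycle i j := by
    by_cases h : i = k ∨ j = k
    · have h' : j = k ∨ i = k := h.symm
      rw [if_pos h, if_pos h']
      exact (Q.no_two_cycle j i)
    · have h' : ¬ (j = k ∨ i = k) := fun h1 => h h1.symm
      rw [if_neg h, if_neg h']
      omega

/-- `Reach Q R` says that `R` lies in `Mut Q`: it is obtained from `Q` by finitely many
mutations. -/
def Reach [DecidableEq V] (Q R : Quiv V) : Prop :=
  Relation.ReflTransGen (fun A B => ∃ k, B = mutate A k) Q R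

/-- The framed quiver of `Q`, on the vertex set `V ⊕ V`: the vertices `inl i` are the vertices
of `Q`, the vertices `inr i` are frozen, and there is one arrow `inl i → inr i` for every `i`. -/
def framed [DecidableEq V] (Q : Quiv V) : Quiv (V ⊕ V) where
  arr x y :=
    match x, y with
    | .inl i, .inl j => Q.arr i j
    | .inl i, .inr j => if i = j then 1 else 0
    | .inr _, _ => 0
  no_loop x := by
    rcases x with i | i
    · exact Q.no_loop i
    · rfl
  no_two_cycle x y := by
    rcases x with i | i <;> rcases y with j | j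
    · exact Q.no_two_cycle i j
    · right; rfl
    · left; rfl
    · left; rfl

/-- Discard all arrows between frozen vertices. -/
def discardFrozen (R : Quiv (V ⊕ V)) : Quiv (V ⊕ V) where
  arr x y :=
    match x, y with
    | .inr _, .inr _ => 0
    | .inl i, y => R.arr (.inl i) y
    | .inr i, .inl j => R.arr (.inr i) (.inl j)
  no_loop x := by
    rcases x with i | i
    · exact R.no_loop _
    · rfl
  no_two_cycle x y := by
    rcases x with i | i <;> rcases y with j | j
    · exact R.no_two_cycle _ _
    · exact R.no_two_cycle _ _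
    · exact R.no_two_cycle _ _
    · left; rfl

/-- Mutation of a quiver with frozen vertices at the non-frozen vertex `k`; arrows between frozen
vertices are discarded. -/
def mutIce [DecidableEq V] (R : Quiv (V ⊕ V)) (k : V) : Quiv (V ⊕ V) :=
  discardFrozen (mutate R (.inl k))

/-- A non-frozen vertex `j` is green if no arrow goes from a frozen vertex to `j`; otherwise it is
red. -/
def IsGreen (R : Quiv (V ⊕ V)) (j : V) : Prop := ∀ i : V, R.arr (.inr i) (.inl j) = 0

/-- `GreenRun R s`: starting from `R`, each vertex of the list `s` is green when it is mutated, and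
after all these mutations all non-frozen vertices are red. -/
def GreenRun [DecidableEq V] : Quiv (V ⊕ V) → List V → Prop
  | R, [] => ∀ j, ¬ IsGreen R j
  | R, k :: s => IsGreen R k ∧ GreenRun (mutIce R k) s

/-- `Q` has a maximal green sequence. -/
def HasMGS [DecidableEq V] (Q : Quiv V) : Prop := ∃ s : List V, GreenRun (framed Q) s

/-- Equality of quivers up to relabelling of the vertices. -/
def relabel (V : Type) : Setoid (Quiv V) where
  r Q R := ∃ e : Equiv.Perm V, ∀ i j, R.arr (e i) (e j) = Q.arr i j
  iseqv :=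
    { refl := fun Q => ⟨Equiv.refl V, fun i j => rfl⟩
      symm := by
        rintro Q R ⟨e, he⟩
        refine ⟨e.symm, fun i j => ?_⟩
        have := he (e.symm i) (e.symm j)
        simpa using this.symm
      trans := by
        rintro Q R S ⟨e, he⟩ ⟨f, hf⟩
        refine ⟨e.trans f, fun i j => ?_⟩
        simp only [Equiv.trans_apply]
        rw [hf, he] }

/-- The vertex set of `Psi Q`: the quivers in `Mut Q`, up to relabelling of the vertices, that have
a maximal green sequence. -/
def Psi [DecidableEq V] (Q : Quiv V) : Set (Quotient (relabel V)) :=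
  {x | ∃ R : Quiv V, Reach Q R ∧ HasMGS R ∧ Quotient.mk (relabel V) R = x}

/-- The direct sum of `Q` and `Q'` along a list `l` of pairs `(a_i, b_i)` with `a_i` a vertex of `Q`
and `b_i` a vertex of `Q'` (repetitions allowed): the vertices and arrows of `Q` and of `Q'` plus
one arrow `a_i → b_i` for each `i`. -/
def directSum [DecidableEq V] [DecidableEq W] (Q : Quiv V) (Q' : Quiv W) (l : List (V × W)) :
    Quiv (V ⊕ W) where
  arr x y :=
    match x, y with
    | .inl i, .inl j => Q.arr i j
    | .inr i, .inr j => Q'.arr i j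
    | .inl i, .inr j => l.count (i, j)
    | .inr _, .inl _ => 0
  no_loop x := by
    rcases x with i | i
    · exact Q.no_loop i
    · exact Q'.no_loop i
  no_two_cycle x y := by
    rcases x with i | i <;> rcases y with j | j
    · exact Q.no_two_cycle i j
    · right; rfl
    · left; rfl
    · exact Q'.no_two_cycle i j

/-! ## Basic lemmas on mutation -/

section basic

variable [DecidableEq V]

lemma mutate_arr_of_ne (Q : Quiv V) {k i j : V} (hi : i ≠ k) (hj : j ≠ k) :
    (mutate Q k).arr i j
      = (Q.arr i j + Q.arr i k * Q.arr k j) - (Q.arr j i + Q.arr j k * Q.arr k i) := by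
  simp [mutate, hi, hj]

lemma mutate_arr_left (Q : Quiv V) (k j : V) : (mutate Q k).arr k j = Q.arr j k := by
  simp [mutate]

lemma mutate_arr_right (Q : Quiv V) (k i : V) : (mutate Q k).arr i k = Q.arr k i := by
  simp [mutate]

lemma mutate_mutate (Q : Quiv V) (k : V) : mutate (mutate Q k) k = Q := by
  ext i j
  by_cases hi : i = k
  · subst hi
    rw [mutate_arr_left, mutate_arr_right]
  · by_cases hj : j = k
    · subst hj
      rw [mutate_arr_right, mutate_arr_left]
    · rw [mutate_arr_of_ne _ hi hj, mutate_arr_of_ne _ hi hj, mutate_arr_of_ne _ hj hi,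
        mutate_arr_left, mutate_arr_right, mutate_arr_left, mutate_arr_right,
        Nat.mul_comm (Q.arr k i), Nat.mul_comm (Q.arr k j)]
      have h := Q.no_two_cycle i j
      generalize Q.arr i k * Q.arr k j = p
      generalize Q.arr j k * Q.arr k i = n
      omega

end basic

/-! ## Non-existence of maximal green sequences -/

section noMGS

variable [DecidableEq V]

/-- The quiver on the non-frozen vertices. -/
def core (R : Quiv (V ⊕ V)) : Quiv V where
  arr i j := R.arr (.inl i) (.inl j)
  no_loop _ := R.no_loop _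
  no_two_cycle _ _ := R.no_two_cycle _ _

/-- The entries of the c-vectors. -/
def cvec (R : Quiv (V ⊕ V)) (i f : V) : ℤ := (R.arr (.inl i) (.inr f) : ℤ) - R.arr (.inr f) (.inl i)

lemma core_framed (Q : Quiv V) : core (framed Q) = Q := rfl

lemma core_mutIce (R : Quiv (V ⊕ V)) (k : V) : core (mutIce R k) = mutate (core R) k := by
  ext i j
  simp [core, mutIce, discardFrozen, mutate]

lemma cvec_framed (Q : Quiv V) (i f : V) : cvec (framed Q) i f = if i = f then 1 else 0 := by
  by_cases h : i = f <;> simp [cvec, framed, h]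

omit [DecidableEq V] in
lemma isGreen_iff (R : Quiv (V ⊕ V)) (j : V) : IsGreen R j ↔ ∀ f, 0 ≤ cvec R j f := by
  constructor
  · intro h f
    have := h f
    unfold cvec
    omega
  · intro h f
    have h1 := h f
    have h2 := R.no_two_cycle (.inr f) (.inl j)
    unfold cvec at h1
    omega

lemma cvec_mutIce_self (R : Quiv (V ⊕ V)) (k f : V) : cvec (mutIce R k) k f = - cvec R k f := by
  have h1 : (mutIce R k).arr (.inl k) (.inr f) = R.arr (.inr f) (.inl k) := by
    simp [mutIce, discardFrozen, mutate]
  have h2 : (mutIce R k).arr (.inr f) (.inl k) = R.arr (.inl k) (.inr f) := by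
    simp [mutIce, discardFrozen, mutate]
  simp only [cvec, h1, h2]
  ring

lemma cvec_mutIce_of_ne (R : Quiv (V ⊕ V)) {k i : V} (hk : IsGreen R k) (hi : i ≠ k) (f : V) :
    cvec (mutIce R k) i f = cvec R i f + (core R).arr i k * cvec R k f := by
  have h1 : (mutIce R k).arr (.inl i) (.inr f)
      = (R.arr (.inl i) (.inr f) + R.arr (.inl i) (.inl k) * R.arr (.inl k) (.inr f))
        - (R.arr (.inr f) (.inl i) + R.arr (.inr f) (.inl k) * R.arr (.inl k) (.inl i)) := by
    simp [mutIce, discardFrozen, mutate, hi]
  have h2 : (mutIce R k).arr (.inr f) (.inl i)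
      = (R.arr (.inr f) (.inl i) + R.arr (.inr f) (.inl k) * R.arr (.inl k) (.inl i))
        - (R.arr (.inl i) (.inr f) + R.arr (.inl i) (.inl k) * R.arr (.inl k) (.inr f)) := by
    simp [mutIce, discardFrozen, mutate, hi]
  have h3 : R.arr (.inr f) (.inl k) = 0 := hk f
  simp only [cvec, h1, h2, h3, core]
  rw [Nat.zero_mul, Nat.add_zero]
  generalize hp : R.arr (.inl i) (.inl k) * R.arr (.inl k) (.inr f) = p
  have hp' : (R.arr (.inl i) (.inl k) : ℤ) * ((R.arr (.inl k) (.inr f) : ℤ) - ((0 : ℕ) : ℤ))
      = (p : ℤ) := by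
    rw [← hp]; push_cast; ring
  rw [hp']
  omega

/-- Properties of a class of quivers, closed under mutation, that exclude maximal green sequences
for all its non-acyclic members. -/
structure Nice (P : Quiv V → Prop) : Prop where
  closed : ∀ R k, P R → P (mutate R k)
  ab : ∀ R, P R → ∀ i j, i ≠ j → 2 ≤ R.arr i j ∨ 2 ≤ R.arr j i
  star : ∀ R, P R → ∀ t u v w, 0 < R.arr t u → 0 < R.arr t v → 0 < R.arr w t →
    0 < (mutate R t).arr u v → 0 < (mutate R t).arr v w → 0 < (mutate R t).arr w u →
    (mutate R t).arr v w < (mutate R t).arr u v → (mutate R t).arr w u < (mutate R t).arr u v →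
    R.arr w t < R.arr u w ∧ R.arr t u < R.arr u w

/-- The invariant of green mutation sequences. `g i` says that `i` is green. -/
structure Inv (b : V → V → ℕ) (c : V → V → ℤ) (g : V → Prop) : Prop where
  green : ∀ i, g i → ∀ f, 0 ≤ c i f
  red : ∀ i, ¬ g i → ∀ f, c i f ≤ 0
  nz : ∀ i, ∃ f, c i f ≠ 0
  one : ∀ u v, 0 < b u v → ¬ g u → g v → ∀ f, 0 ≤ c u f + c v f
  three : ∀ u v w, 0 < b u v → 0 < b v w → 0 < b w u → b v w < b u v → b w u < b u v →
    ¬ g u → ¬ g v → g w → ∀ f, 0 ≤ c u f + c w f
  act : (∃ u v, 0 < b u v ∧ ¬ g u ∧ g v) ∨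
    (∃ x y z, 0 < b x y ∧ 0 < b y z ∧ 0 < b z x ∧ g x ∧ g y ∧ g z)

/-- One step: the invariant is preserved by mutation at a green vertex. -/
lemma Inv.step {P : Quiv V → Prop} (hP : Nice P) (Q : Quiv V) (hQ : P Q) (c c' : V → V → ℤ)
    (g : V → Prop) (t : V) (hI : Inv Q.arr c g) (ht : g t)
    (hc1 : ∀ f, c' t f = - c t f)
    (hc2 : ∀ i, i ≠ t → ∀ f, c' i f = c i f + Q.arr i t * c t f) :
    Inv (mutate Q t).arr c' (fun i => i ≠ t ∧ (0 < Q.arr i t ∨ g i)) := by
  obtain ⟨hgreen, hred, hnz, hone, hthree, hact⟩ := hI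
  have h2 : ∀ i j, 0 < Q.arr i j → Q.arr j i = 0 := by
    intro i j h
    rcases Q.no_two_cycle i j with h' | h' <;> omega
  have hab : ∀ i j, 0 < Q.arr i j → 2 ≤ Q.arr i j := by
    intro i j h
    have hij : i ≠ j := by
      rintro rfl
      rw [Q.no_loop] at h; omega
    rcases hP.ab Q hQ i j hij with h' | h'
    · exact h'
    · have := h2 i j h
      omega
  have htri : ∀ i j, i ≠ j → Q.arr i j = 0 → 2 ≤ Q.arr j i := by
    intro i j hij h
    rcases hP.ab Q hQ i j hij with h' | h' <;> omega
  have htg := hgreen t ht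
  have hmul : ∀ i f, 0 < Q.arr i t → 2 * c t f ≤ Q.arr i t * c t f := by
    intro i f hi
    have h1 : (2 : ℤ) ≤ Q.arr i t := by exact_mod_cast hab i t hi
    exact mul_le_mul_of_nonneg_right h1 (htg f)
  have hmul0 : ∀ i f, 0 ≤ (Q.arr i t : ℤ) * c t f := by
    intro i f
    exact mul_nonneg (by positivity) (htg f)
  have hzero : ∀ i, i ≠ t → Q.arr i t = 0 → ∀ f, c' i f = c i f := by
    intro i hi h f
    rw [hc2 i hi f, h]; simp
  -- a vertex with an arrow to `t` becomes green, with large c-vector
  have hin : ∀ i, i ≠ t → 0 < Q.arr i t → ∀ f, c t f ≤ c' i f := by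
    intro i hi h f
    rw [hc2 i hi f]
    have h1 := hmul i f h
    have h3 := htg f
    by_cases hg : g i
    · have := hgreen i hg f
      linarith
    · have := hone i t h hg ht f
      linarith
  have hne : ∀ i j, 0 < Q.arr i j → i ≠ j := by
    rintro i j h rfl
    rw [Q.no_loop] at h; omega
  refine ⟨?_, ?_, ?_, ?_, ?_, ?_⟩
  · -- green vertices have nonnegative c-vectors
    rintro i ⟨hi, h | h⟩ f
    · exact le_trans (htg f) (hin i hi h f)
    · rw [hc2 i hi f]
      have := hgreen i h f
      have := hmul0 i f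
      linarith
  · -- red vertices have nonpositive c-vectors
    intro i hi f
    by_cases hit : i = t
    · subst hit
      rw [hc1]
      have := htg f
      linarith
    · have h1 : Q.arr i t = 0 := by
        by_contra h1
        exact hi ⟨hit, Or.inl (Nat.pos_of_ne_zero h1)⟩
      have h3 : ¬ g i := fun h3 => hi ⟨hit, Or.inr h3⟩
      rw [hzero i hit h1]
      exact hred i h3 f
  · -- c-vectors are nonzero
    intro i
    by_cases hit : i = t
    · subst hit
      obtain ⟨f, hf⟩ := hnz i
      exact ⟨f, by rw [hc1]; simpa using hf⟩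
    · by_cases h1 : Q.arr i t = 0
      · obtain ⟨f, hf⟩ := hnz i
        exact ⟨f, by rw [hzero i hit h1]; exact hf⟩
      · obtain ⟨f, hf⟩ := hnz t
        refine ⟨f, ?_⟩
        have h3 := hin i hit (Nat.pos_of_ne_zero h1) f
        have h4 := htg f
        have h5 : 0 < c t f := lt_of_le_of_ne h4 (Ne.symm hf)
        linarith
  · -- the first inequality
    intro u v huv hu hv f
    obtain ⟨hvt, hv⟩ := hv
    by_cases hut : u = t
    · subst hut
      rw [mutate_arr_left] at huv
      rw [hc1, hc2 v hvt f]
      have h1 := hmul v f huv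
      have h3 := htg f
      by_cases hgv : g v
      · have := hgreen v hgv f
        linarith
      · have := hone v u huv hgv ht f
        linarith
    · have hu1 : Q.arr u t = 0 := by
        by_contra h1
        exact hu ⟨hut, Or.inl (Nat.pos_of_ne_zero h1)⟩
      have hu2 : ¬ g u := fun h3 => hu ⟨hut, Or.inr h3⟩
      rw [hzero u hut hu1]
      rw [mutate_arr_of_ne _ hut hvt, hu1, Nat.zero_mul, Nat.add_zero] at huv
      have huv' : 0 < Q.arr u v := by omega
      by_cases hgv : g v
      · have h1 := hone u v huv' hu2 hgv f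
        rw [hc2 v hvt f]
        have := hmul0 v f
        linarith
      · have hv' : 0 < Q.arr v t := by
          rcases hv with h | h
          · exact h
          · exact absurd h hgv
        have htu : 2 ≤ Q.arr t u := htri u t hut hu1
        have hv2 := hab v t hv'
        have h5 : Q.arr v t < Q.arr u v := by
          have : Q.arr v t * 2 ≤ Q.arr v t * Q.arr t u := Nat.mul_le_mul_left _ htu
          omega
        have h6 : Q.arr t u < Q.arr u v := by
          have : 2 * Q.arr t u ≤ Q.arr v t * Q.arr t u := Nat.mul_le_mul_right _ hv2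
          omega
        have h7 := hthree u v t huv' hv' (by omega) h5 h6 hu2 hgv ht f
        have h8 := hone v t hv' hgv ht f
        rw [hc2 v hvt f]
        have h9 := hmul v f hv'
        linarith
  · -- the second inequality
    intro u v w huv hvw hwu h1 h3 hu hv hw f
    obtain ⟨hwt, hw⟩ := hw
    have hut : u ≠ t := by
      rintro rfl
      rw [mutate_arr_left] at huv
      have hvu : v ≠ u := hne v u huv
      exact hv ⟨hvu, Or.inl huv⟩
    have hu1 : Q.arr u t = 0 := by
      by_contra h1
      exact hu ⟨hut, Or.inl (Nat.pos_of_ne_zero h1)⟩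
    have hu2 : ¬ g u := fun h3 => hu ⟨hut, Or.inr h3⟩
    have htu : 2 ≤ Q.arr t u := htri u t hut hu1
    rw [hzero u hut hu1]
    -- the common ending
    have key : 0 < Q.arr w t → Q.arr w t < Q.arr u w → Q.arr t u < Q.arr u w →
        0 ≤ c u f + c' w f := by
      intro hwt' k1 k2
      have huw : 0 < Q.arr u w := by omega
      rw [hc2 w hwt f]
      have h9 := hmul w f hwt'
      by_cases hgw : g w
      · have := hone u w huw hu2 hgw f
        have := htg f
        linarith
      · have h7 := hthree u w t huw hwt' (by omega) k1 k2 hu2 hgw ht f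
        have h8 := hone w t hwt' hgw ht f
        linarith
    by_cases hvt : v = t
    · subst hvt
      rw [mutate_arr_right] at huv h1 h3
      rw [mutate_arr_left] at hvw h1
      rw [mutate_arr_of_ne _ hwt hut, hu1, Nat.zero_mul, Nat.add_zero] at hwu h3
      have hw2 := hab w v hvw
      have h5 : 2 * Q.arr v u ≤ Q.arr w v * Q.arr v u := Nat.mul_le_mul_right _ hw2
      exact key hvw (by omega) (by omega)
    · have hv1 : Q.arr v t = 0 := by
        by_contra h1
        exact hv ⟨hvt, Or.inl (Nat.pos_of_ne_zero h1)⟩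
      have hv2 : ¬ g v := fun h3 => hv ⟨hvt, Or.inr h3⟩
      have htv : 2 ≤ Q.arr t v := htri v t hvt hv1
      by_cases hwt' : 0 < Q.arr w t
      · obtain ⟨k1, k2⟩ := hP.star Q hQ t u v w (by omega) (by omega) hwt' huv hvw hwu h1 h3
        exact key hwt' k1 k2
      · have hw1 : Q.arr w t = 0 := by omega
        have hgw : g w := by
          rcases hw with h | h
          · exact absurd h hwt'
          · exact h
        rw [mutate_arr_of_ne _ hut hvt, hu1, hv1] at huv h1 h3
        rw [mutate_arr_of_ne _ hvt hwt, hv1, hw1] at hvw h1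
        rw [mutate_arr_of_ne _ hwt hut, hu1, hw1] at hwu h3
        simp only [Nat.zero_mul, Nat.add_zero] at huv hvw hwu h1 h3
        have a1 := Q.no_two_cycle u v
        have a2 := Q.no_two_cycle v w
        have a3 := Q.no_two_cycle w u
        rw [hzero w hwt hw1]
        exact hthree u v w (by omega) (by omega) (by omega) (by omega) (by omega) hu2 hv2 hgw f
  · -- activity
    rcases hact with ⟨u, v, huv, hu, hv⟩ | ⟨x, y, z, hxy, hyz, hzx, hx, hy, hz⟩
    · have hut : u ≠ t := by
        rintro rfl
        exact hu ht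
      left
      by_cases hvt : v = t
      · subst hvt
        exact ⟨v, u, by rw [mutate_arr_left]; exact huv, fun h => h.1 rfl, hut, Or.inl huv⟩
      · by_cases hv1 : 0 < Q.arr v t
        · exact ⟨t, v, by rw [mutate_arr_left]; exact hv1, fun h => h.1 rfl, hvt, Or.inl hv1⟩
        · by_cases hu1 : 0 < Q.arr u t
          · exact ⟨t, u, by rw [mutate_arr_left]; exact hu1, fun h => h.1 rfl, hut, Or.inl hu1⟩
          · refine ⟨u, v, ?_, ?_, hvt, Or.inr hv⟩
            · have e1 : Q.arr v t = 0 := by omega
              have e2 : Q.arr u t = 0 := by omega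
              have e3 := h2 u v huv
              rw [mutate_arr_of_ne _ hut hvt, e1, e2, e3]
              simpa using huv
            · rintro ⟨-, h | h⟩
              · exact hu1 h
              · exact hu h
    · by_cases hx1 : 0 < Q.arr x t
      · left
        exact ⟨t, x, by rw [mutate_arr_left]; exact hx1, fun h => h.1 rfl, hne x t hx1, Or.inl hx1⟩
      by_cases hy1 : 0 < Q.arr y t
      · left
        exact ⟨t, y, by rw [mutate_arr_left]; exact hy1, fun h => h.1 rfl, hne y t hy1, Or.inl hy1⟩
      by_cases hz1 : 0 < Q.arr z t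
      · left
        exact ⟨t, z, by rw [mutate_arr_left]; exact hz1, fun h => h.1 rfl, hne z t hz1, Or.inl hz1⟩
      right
      have hxt : x ≠ t := by rintro rfl; exact hz1 hzx
      have hyt : y ≠ t := by rintro rfl; exact hx1 hxy
      have hzt : z ≠ t := by rintro rfl; exact hy1 hyz
      have ex : Q.arr x t = 0 := by omega
      have ey : Q.arr y t = 0 := by omega
      have ez : Q.arr z t = 0 := by omega
      have f1 := h2 x y hxy
      have f2 := h2 y z hyz
      have f3 := h2 z x hzx
      refine ⟨x, y, z, ?_, ?_, ?_, ⟨hxt, Or.inr hx⟩, ⟨hyt, Or.inr hy⟩, ⟨hzt, Or.inr hz⟩⟩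
      · rw [mutate_arr_of_ne _ hxt hyt, ex, ey, f1]; simpa using hxy
      · rw [mutate_arr_of_ne _ hyt hzt, ey, ez, f2]; simpa using hyz
      · rw [mutate_arr_of_ne _ hzt hxt, ez, ex, f3]; simpa using hzx

/-- If the invariant holds, no green mutation sequence ends with all vertices red. -/
lemma not_greenRun {P : Quiv V → Prop} (hP : Nice P) (s : List V) :
    ∀ R : Quiv (V ⊕ V), P (core R) → Inv (core R).arr (cvec R) (IsGreen R) → ¬ GreenRun R s := by
  induction s with
  | nil =>
    intro R _ hI h
    rcases hI.act with ⟨_, v, _, _, hv⟩ | ⟨x, _, _, _, _, _, hx, _⟩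
    · exact h v hv
    · exact h x hx
  | cons k s ih =>
    intro R hR hI h
    obtain ⟨hk, h⟩ := h
    refine ih (mutIce R k) ?_ ?_ h
    · rw [core_mutIce]
      exact hP.closed _ k hR
    · rw [core_mutIce]
      have h1 := Inv.step hP (core R) hR (cvec R) (cvec (mutIce R k)) (IsGreen R) k hI hk
        (cvec_mutIce_self R k) (fun i hi f => cvec_mutIce_of_ne R hk hi f)
      have h2 : (fun i => i ≠ k ∧ (0 < (core R).arr i k ∨ IsGreen R i)) = IsGreen (mutIce R k) := by
        funext i
        apply propext
        rw [isGreen_iff (mutIce R k)]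
        constructor
        · intro h3
          exact h1.green i h3
        · intro h3
          by_contra h4
          obtain ⟨f, hf⟩ := h1.nz i
          have h5 := h1.red i h4 f
          have h6 := h3 f
          omega
      rw [← h2]
      exact h1

/-- No non-acyclic member of a nice class has a maximal green sequence. -/
theorem not_hasMGS {P : Quiv V → Prop} (hP : Nice P) (Q : Quiv V) (hQ : P Q)
    (h : ∃ x y z, 0 < Q.arr x y ∧ 0 < Q.arr y z ∧ 0 < Q.arr z x) : ¬ HasMGS Q := by
  rintro ⟨s, hs⟩
  have hg : ∀ i, IsGreen (framed Q) i := fun i j => rfl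
  refine not_greenRun hP s (framed Q) hQ ?_ hs
  refine ⟨?_, ?_, ?_, ?_, ?_, ?_⟩
  · intro i _ f
    rw [cvec_framed]
    split_ifs <;> simp
  · intro i hi
    exact absurd (hg i) hi
  · intro i
    exact ⟨i, by rw [cvec_framed]; simp⟩
  · intro u _ _ hu
    exact absurd (hg u) hu
  · intro u _ _ _ _ _ _ _ hu
    exact absurd (hg u) hu
  · right
    obtain ⟨x, y, z, h1, h2, h3⟩ := h
    exact ⟨x, y, z, h1, h2, h3, hg x, hg y, hg z⟩

end noMGS

/-! ## Forks -/

section forks

variable [DecidableEq V]

/-- `Fork Q r`: the quiver `Q` is a fork with point of return `r`. -/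
def Fork (Q : Quiv V) (r : V) : Prop :=
  (∀ i j, i ≠ j → 2 ≤ Q.arr i j ∨ 2 ≤ Q.arr j i) ∧
  (∀ i j, 0 < Q.arr i r → 0 < Q.arr r j → Q.arr i r < Q.arr j i ∧ Q.arr r j < Q.arr j i) ∧
  (∀ x y z, x ≠ r → y ≠ r → z ≠ r → 0 < Q.arr x y → 0 < Q.arr y z → ¬ 0 < Q.arr z x) ∧
  (∃ i j, 0 < Q.arr i r ∧ 0 < Q.arr r j)

instance [Fintype V] (Q : Quiv V) (r : V) : Decidable (Fork Q r) := by
  unfold Fork; infer_instance

/-- Mutating a fork at a vertex `k` that is not its point of return gives a fork with point of
return `k`. -/
lemma Fork.mutate_of_ne {Q : Quiv V} {r k : V} (hF : Fork Q r) (hk : k ≠ r) :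
    Fork (mutate Q k) k := by
  obtain ⟨hab, hret, hcyc, hex⟩ := hF
  have h2 : ∀ i j, 0 < Q.arr i j → Q.arr j i = 0 := by
    intro i j h
    rcases Q.no_two_cycle i j with h' | h' <;> omega
  have hne : ∀ i j, 0 < Q.arr i j → i ≠ j := by
    rintro i j h rfl
    rw [Q.no_loop] at h; omega
  have hge : ∀ i j, 0 < Q.arr i j → 2 ≤ Q.arr i j := by
    intro i j h
    rcases hab i j (hne i j h) with h' | h'
    · exact h'
    · have := h2 i j h
      omega
  have hor : ∀ i, i ≠ k → 0 < Q.arr i k ∨ 0 < Q.arr k i := by
    intro i hi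
    rcases hab i k hi with h | h
    · left; omega
    · right; omega
  -- the main computation
  have key : ∀ i j, 0 < Q.arr j k → 0 < Q.arr k i →
      Q.arr k i < (mutate Q k).arr j i ∧ Q.arr j k < (mutate Q k).arr j i := by
    intro i j hj hi
    have hjk := hne j k hj
    have hik := (hne k i hi).symm
    have hj2 := hge j k hj
    have hi2 := hge k i hi
    rw [mutate_arr_of_ne _ hjk hik, h2 k i hi, Nat.zero_mul, Nat.add_zero]
    have p1 : 2 * Q.arr k i ≤ Q.arr j k * Q.arr k i := Nat.mul_le_mul_right _ hj2
    have p2 : Q.arr j k * 2 ≤ Q.arr j k * Q.arr k i := Nat.mul_le_mul_left _ hi2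
    by_cases hij : 0 < Q.arr i j
    · -- the 3-cycle `i → j → k → i` contains `r`
      by_cases hir : i = r
      · subst hir
        have := hret k j hi hij
        omega
      · by_cases hjr : j = r
        · subst hjr
          have := hret i k hij hj
          omega
        · exact absurd hi (hcyc i j k hir hjr hk hij hj)
    · have hij' : i ≠ j := by
        rintro rfl
        have := h2 k i hi
        omega
      rcases hab i j hij' with h | h
      · omega
      · omega
  -- arrows between vertices on the same side of `k`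
  have sameO : ∀ x y, x ≠ k → y ≠ k → Q.arr x k = 0 → Q.arr y k = 0 →
      (mutate Q k).arr x y = Q.arr x y := by
    intro x y hx hy h3 h4
    rw [mutate_arr_of_ne _ hx hy, h3, h4]
    have := Q.no_two_cycle x y
    omega
  have sameI : ∀ x y, x ≠ k → y ≠ k → Q.arr k x = 0 → Q.arr k y = 0 →
      (mutate Q k).arr x y = Q.arr x y := by
    intro x y hx hy h3 h4
    rw [mutate_arr_of_ne _ hx hy, h3, h4]
    have := Q.no_two_cycle x y
    omega
  -- no arrow from an out-neighbour of `k` to an in-neighbour of `k` after the mutation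
  have noOI : ∀ x y, 0 < Q.arr k x → 0 < Q.arr y k → (mutate Q k).arr x y = 0 := by
    intro x y hx hy
    have h3 := key x y hy hx
    rcases (mutate Q k).no_two_cycle x y with h | h
    · exact h
    · omega
  refine ⟨?_, ?_, ?_, ?_⟩
  · intro i j hij
    by_cases hi : i = k
    · subst hi
      rw [mutate_arr_left, mutate_arr_right]
      exact (hab i j hij).symm
    · by_cases hj : j = k
      · subst hj
        rw [mutate_arr_left, mutate_arr_right]
        exact (hab i j hij).symm
      · rcases hor i hi with h3 | h3 <;> rcases hor j hj with h4 | h4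
        · rw [sameI i j hi hj (h2 _ _ h3) (h2 _ _ h4), sameI j i hj hi (h2 _ _ h4) (h2 _ _ h3)]
          exact hab i j hij
        · left
          have := key j i h3 h4
          have := hge i k h3
          omega
        · right
          have := key i j h4 h3
          have := hge j k h4
          omega
        · rw [sameO i j hi hj (h2 _ _ h3) (h2 _ _ h4), sameO j i hj hi (h2 _ _ h4) (h2 _ _ h3)]
          exact hab i j hij
  · intro i j hi hj
    rw [mutate_arr_right] at hi ⊢
    rw [mutate_arr_left] at hj ⊢
    exact key i j hj hi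
  · intro x y z hx hy hz hxy hyz hzx
    rcases hor x hx with a | a <;> rcases hor y hy with b | b <;> rcases hor z hz with c | c
    · -- all three are in-neighbours of `k`
      rw [sameI x y hx hy (h2 _ _ a) (h2 _ _ b)] at hxy
      rw [sameI y z hy hz (h2 _ _ b) (h2 _ _ c)] at hyz
      rw [sameI z x hz hx (h2 _ _ c) (h2 _ _ a)] at hzx
      by_cases hxr : x = r
      · subst hxr
        have := (hret z k hzx a).1
        have := h2 k z (by omega)
        omega
      · by_cases hyr : y = r
        · subst hyr
          have := (hret x k hxy b).1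
          have := h2 k x (by omega)
          omega
        · by_cases hzr : z = r
          · subst hzr
            have := (hret y k hyz c).1
            have := h2 k y (by omega)
            omega
          · exact hcyc x y z hxr hyr hzr hxy hyz hzx
    · have := noOI z x c a
      omega
    · have := noOI y z b c
      omega
    · have := noOI z x c a
      omega
    · have := noOI x y a b
      omega
    · have := noOI x y a b
      omega
    · have := noOI y z b c
      omega
    · -- all three are out-neighbours of `k`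
      rw [sameO x y hx hy (h2 _ _ a) (h2 _ _ b)] at hxy
      rw [sameO y z hy hz (h2 _ _ b) (h2 _ _ c)] at hyz
      rw [sameO z x hz hx (h2 _ _ c) (h2 _ _ a)] at hzx
      by_cases hxr : x = r
      · subst hxr
        have := (hret k y a hxy).1
        have := h2 y k (by omega)
        omega
      · by_cases hyr : y = r
        · subst hyr
          have := (hret k z b hyz).1
          have := h2 z k (by omega)
          omega
        · by_cases hzr : z = r
          · subst hzr
            have := (hret k x c hzx).1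
            have := h2 x k (by omega)
            omega
          · exact hcyc x y z hxr hyr hzr hxy hyz hzx
  · obtain ⟨i, j, hi, hj⟩ := hex
    rcases hor r (Ne.symm hk) with h | h
    · -- `r → k`, hence `k → i`
      have h3 := (hret i k hi h).1
      refine ⟨i, r, ?_, ?_⟩
      · rw [mutate_arr_right]; omega
      · rw [mutate_arr_left]; exact h
    · have h3 := (hret k j h hj).1
      refine ⟨r, j, ?_, ?_⟩
      · rw [mutate_arr_right]; exact h
      · rw [mutate_arr_left]; omega

omit [DecidableEq V] in
/-- A fork contains an oriented 3-cycle. -/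
lemma Fork.exists_cycle {Q : Quiv V} {r : V} (hF : Fork Q r) :
    ∃ x y z, 0 < Q.arr x y ∧ 0 < Q.arr y z ∧ 0 < Q.arr z x := by
  obtain ⟨-, hret, -, i, j, hi, hj⟩ := hF
  have := (hret i j hi hj).1
  exact ⟨i, r, j, hi, hj, by omega⟩

/-- The quivers obtained from a set `C` of quivers by repeatedly mutating into forks. -/
inductive Good (C : Quiv V → Prop) : Quiv V → Prop
  | base (R : Quiv V) : C R → Good C R
  | fork (R : Quiv V) (r : V) : Good C (mutate R r) → Fork R r → Good C R

lemma Good.mutate {C : Quiv V → Prop}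
    (hC : ∀ R k, C R → C (mutate R k) ∨ Fork (mutate R k) k) {R : Quiv V} (hR : Good C R)
    (k : V) : Good C (mutate R k) := by
  rcases hR with ⟨_, hR⟩ | ⟨_, r, hR, hF⟩
  · rcases hC R k hR with h | h
    · exact Good.base _ h
    · refine Good.fork _ k ?_ h
      rw [mutate_mutate]
      exact Good.base _ hR
  · by_cases hk : k = r
    · subst hk
      exact hR
    · refine Good.fork _ k ?_ (hF.mutate_of_ne hk)
      rw [mutate_mutate]
      exact Good.fork _ r hR hF

lemma Good.reach {C : Quiv V → Prop}
    (hC : ∀ R k, C R → C (DirectSum.mutate R k) ∨ Fork (DirectSum.mutate R k) k) {Q R : Quiv V}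
    (hQ : Good C Q) (h : Reach Q R) : Good C R := by
  unfold Reach at h
  induction h with
  | refl => exact hQ
  | tail _ h ih =>
    obtain ⟨k, rfl⟩ := h
    exact ih.mutate hC k

/-- The class of good quivers is nice. -/
lemma nice_good {C : Quiv V → Prop}
    (hC : ∀ R k, C R → C (mutate R k) ∨ Fork (mutate R k) k)
    (hab : ∀ R, C R → ∀ i j, i ≠ j → 2 ≤ R.arr i j ∨ 2 ≤ R.arr j i)
    (hstar : ∀ R, C R → ∀ t u v w, 0 < R.arr t u → 0 < R.arr t v → 0 < R.arr w t →
      C (mutate R t) →
      0 < (mutate R t).arr u v → 0 < (mutate R t).arr v w → 0 < (mutate R t).arr w u → False) :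
    Nice (Good C) where
  closed R k hR := hR.mutate hC k
  ab R hR := by
    rcases hR with ⟨_, hR⟩ | ⟨_, r, _, hF⟩
    · exact hab R hR
    · exact hF.1
  star R hR t u v w htu htv hwt huv hvw hwu _ _ := by
    have hne : ∀ i j, 0 < R.arr i j → i ≠ j := by
      rintro i j h rfl
      rw [R.no_loop] at h; omega
    have h1 := (hne t u htu).symm
    have h2 := (hne t v htv).symm
    have h3 := hne w t hwt
    rcases hR with ⟨_, hR⟩ | ⟨_, r, _, hF⟩
    · rcases hC R t hR with h | h
      · exact (hstar R hR t u v w htu htv hwt h huv hvw hwu).elim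
      · exact absurd hwu (h.2.2.1 u v w h1 h2 h3 huv hvw)
    · by_cases hr : t = r
      · subst hr
        exact hF.2.1 w u hwt htu
      · exact absurd hwu ((hF.mutate_of_ne hr).2.2.1 u v w h1 h2 h3 huv hvw)

end forks

/-! ## The example -/

instance [Fintype V] : DecidableEq (Quiv V) := fun Q R =>
  decidable_of_iff (∀ i j, Q.arr i j = R.arr i j)
    ⟨fun h => Quiv.ext (funext fun i => funext fun j => h i j), fun h => by rw [h]; simp⟩

instance [Fintype V] (R : Quiv (V ⊕ V)) (j : V) : Decidable (IsGreen R j) := by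
  unfold IsGreen; infer_instance

instance decGreenRun [DecidableEq V] [Fintype V] :
    ∀ (s : List V) (R : Quiv (V ⊕ V)), Decidable (GreenRun R s)
  | [], R => by unfold GreenRun; infer_instance
  | k :: s, R => by
    have := decGreenRun s (mutIce R k)
    unfold GreenRun
    infer_instance

/-- The quiver `Q`: three vertices, `0 → 2` six arrows, `2 → 1` two arrows, `1 → 0` two arrows. -/
def quivQ : Quiv (Fin 3) where
  arr := ![![0, 0, 6], ![2, 0, 0], ![0, 2, 0]]
  no_loop := by decide
  no_two_cycle := by decide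

/-- The quiver `Q'`: one vertex. -/
def quivP : Quiv (Fin 1) where
  arr := ![![0]]
  no_loop := by decide
  no_two_cycle := by decide

/-- The pairs of the direct sum: two arrows from every vertex of `Q` to the vertex of `Q'`. -/
def pairs : List (Fin 3 × Fin 1) := [(0, 0), (0, 0), (1, 0), (1, 0), (2, 0), (2, 0)]

/-- The acyclic quivers in the mutation class of `quivQ`. -/
def core3 : Fin 3 → Quiv (Fin 3)
  | 0 => ⟨![![0, 2, 2], ![0, 0, 2], ![0, 0, 0]], by decide, by decide⟩
  | 1 => ⟨![![0, 0, 0], ![2, 0, 2], ![2, 0, 0]], by decide, by decide⟩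
  | 2 => ⟨![![0, 2, 0], ![0, 0, 0], ![2, 2, 0]], by decide, by decide⟩

/-- The non-fork quivers in the mutation class of `quivQ`. -/
def C3 (R : Quiv (Fin 3)) : Prop := ∃ j, R = core3 j

lemma C3_mutate : ∀ R k, C3 R → C3 (mutate R k) ∨ Fork (mutate R k) k := by
  rintro _ k ⟨j, rfl⟩
  unfold C3
  revert j k
  decide

lemma good_quivQ : Good C3 quivQ := by
  refine Good.fork _ 1 (Good.base _ ⟨0, ?_⟩) ?_
  · decide
  · decide

lemma nice3 : Nice (Good C3) := by
  refine nice_good C3_mutate ?_ ?_
  · rintro _ ⟨j, rfl⟩
    revert j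
    decide
  · rintro R _ t u v w htu htv hwt _ huv hvw hwu
    have hne : ∀ (S : Quiv (Fin 3)) i j, 0 < S.arr i j → i ≠ j := by
      rintro S i j h rfl
      rw [S.no_loop] at h; omega
    have h1 := hne _ _ _ htu
    have h2 := hne _ _ _ htv
    have h3 := hne _ _ _ hwt
    have h4 := hne _ _ _ huv
    have h5 := hne _ _ _ hvw
    have h6 := hne _ _ _ hwu
    omega

/-- Numbering of the vertices of the direct sum. -/
def num : Fin 3 ⊕ Fin 1 → Fin 4
  | .inl i => i.castSucc
  | .inr _ => 3

/-- A quiver on the vertices of the direct sum, given by a table. -/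
def ofTable (T : Fin 4 → Fin 4 → ℕ) (h1 : ∀ i, T i i = 0) (h2 : ∀ i j, T i j = 0 ∨ T j i = 0) :
    Quiv (Fin 3 ⊕ Fin 1) where
  arr x y := T (num x) (num y)
  no_loop x := h1 (num x)
  no_two_cycle x y := h2 (num x) (num y)

/-- The six non-fork quivers in the mutation class of the direct sum. -/
def core4 : Fin 6 → Quiv (Fin 3 ⊕ Fin 1)
  | 0 => ofTable ![![0, 0, 6, 2], ![2, 0, 0, 2], ![0, 2, 0, 2], ![0, 0, 0, 0]]
      (by decide) (by decide)
  | 1 => ofTable ![![0, 0, 6, 0], ![2, 0, 0, 0], ![0, 2, 0, 0], ![2, 2, 2, 0]]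
      (by decide) (by decide)
  | 2 => ofTable ![![0, 2, 2, 0], ![0, 0, 2, 2], ![0, 0, 0, 0], ![6, 0, 2, 0]]
      (by decide) (by decide)
  | 3 => ofTable ![![0, 2, 0, 0], ![0, 0, 0, 2], ![2, 2, 0, 2], ![6, 0, 0, 0]]
      (by decide) (by decide)
  | 4 => ofTable ![![0, 0, 0, 0], ![2, 0, 2, 0], ![2, 0, 0, 6], ![2, 2, 0, 0]]
      (by decide) (by decide)
  | 5 => ofTable ![![0, 2, 2, 2], ![0, 0, 2, 0], ![0, 0, 0, 6], ![0, 2, 0, 0]]
      (by decide) (by decide)

/-- The non-fork quivers in the mutation class of the direct sum. -/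
def C4 (R : Quiv (Fin 3 ⊕ Fin 1)) : Prop := ∃ j, R = core4 j

lemma C4_mutate : ∀ R k, C4 R → C4 (mutate R k) ∨ Fork (mutate R k) k := by
  rintro _ k ⟨j, rfl⟩
  unfold C4
  revert j k
  decide +kernel

lemma good_directSum : Good C4 (directSum quivQ quivP pairs) := by
  refine Good.base _ ⟨0, ?_⟩
  decide +kernel

lemma nice4 : Nice (Good C4) := by
  refine nice_good C4_mutate ?_ ?_
  · rintro _ ⟨j, rfl⟩
    revert j
    decide +kernel
  · rintro _ ⟨j, rfl⟩ t u v w htu htv hwt hC huv hvw hwu
    have key : ∀ (j : Fin 6) (t u v w : Fin 3 ⊕ Fin 1), ¬ (0 < (core4 j).arr t u ∧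
        0 < (core4 j).arr t v ∧ 0 < (core4 j).arr w t ∧ 0 < (mutate (core4 j) t).arr u v ∧
        0 < (mutate (core4 j) t).arr v w ∧ 0 < (mutate (core4 j) t).arr w u ∧
        ∃ i, mutate (core4 j) t = core4 i) := by
      decide +kernel
    exact key j t u v w ⟨htu, htv, hwt, huv, hvw, hwu, hC⟩

lemma core4_cycle : ∀ j, ∃ x y z, 0 < (core4 j).arr x y ∧ 0 < (core4 j).arr y z ∧
    0 < (core4 j).arr z x := by
  decide +kernel

/-- `Psi` of the direct sum is empty. -/
lemma psi_directSum : Psi (directSum quivQ quivP pairs) = ∅ := by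
  rw [Set.eq_empty_iff_forall_notMem]
  rintro _ ⟨R, hR, hM, rfl⟩
  have hG : Good C4 R := good_directSum.reach C4_mutate hR
  refine not_hasMGS nice4 R hG ?_ hM
  rcases hG with ⟨_, j, rfl⟩ | ⟨_, r, _, hF⟩
  · exact core4_cycle j
  · exact hF.exists_cycle

/-- `Psi quivQ` is finite. -/
lemma psi_quivQ_finite : (Psi quivQ).Finite := by
  refine Set.Finite.subset (Set.finite_range fun j => Quotient.mk (relabel (Fin 3)) (core3 j)) ?_
  rintro _ ⟨R, hR, hM, rfl⟩
  have hG : Good C3 R := good_quivQ.reach C3_mutate hR
  rcases hG with ⟨_, j, rfl⟩ | ⟨_, r, hG, hF⟩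
  · exact ⟨j, rfl⟩
  · exact absurd hM (not_hasMGS nice3 R (Good.fork _ r hG hF) hF.exists_cycle)

/-- `Psi quivQ` is non-empty. -/
lemma psi_quivQ_nonempty : (Psi quivQ).Nonempty := by
  refine ⟨_, mutate quivQ 1, Relation.ReflTransGen.single ⟨1, rfl⟩, ⟨[0, 1, 2], ?_⟩, rfl⟩
  decide +kernel

lemma psi_quivP_finite : (Psi quivP).Finite := by
  refine Set.Finite.subset (Set.finite_singleton (Quotient.mk (relabel (Fin 1)) quivP)) ?_
  rintro _ ⟨R, _, _, rfl⟩
  have : R = quivP := by
    ext i j
    have hij : i = j := Subsingleton.elim i j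
    subst hij
    rw [R.no_loop, quivP.no_loop]
  rw [this]
  rfl

lemma psi_quivP_nonempty : (Psi quivP).Nonempty := by
  refine ⟨_, quivP, Relation.ReflTransGen.refl, ⟨[0], ?_⟩, rfl⟩
  decide +kernel

/-- There are quivers `Q` (three vertices) and `Q'` (one vertex) such that `Psi Q` and `Psi Q'` are
finite and non-empty, and a direct sum of `Q` and `Q'` whose `Psi` is empty. -/
theorem result : ∃ (Q : Quiv (Fin 3)) (Q' : Quiv (Fin 1)) (l : List (Fin 3 × Fin 1)),
    (Psi Q).Finite ∧ (Psi Q).Nonempty ∧ (Psi Q').Finite ∧ (Psi Q').Nonempty ∧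
      Psi (directSum Q Q' l) = ∅ :=
  ⟨quivQ, quivP, pairs, psi_quivQ_finite, psi_quivQ_nonempty, psi_quivP_finite,
    psi_quivP_nonempty, psi_directSum⟩

end Pool.Agent.Results.MP_10e588_co.DirectSum
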